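import Pool.Graph.R_pool_sql_team_seeded_64922ed1.X246.LRS.Core
import Pool.Graph.R_pool_sql_team_seeded_2aa45f1a.Q95.EigMult
import Pool.Graph.R_seed8.R533.VC.Err

/-!
Unit vectors in a space of small dimension whose scalar products take few large values.
-/

set_option autoImplicit false

namespace Pool.Agent.H711.FC

open Finset

variable {n : Type} [Fintype n]

theorem rank_pow (G : Matrix n n ℝ) (R : ℕ) (hR : G.rank ≤ R) (p : ℕ) :
    (Matrix.of fun i j => G i j ^ p).rank ≤ R ^ p := by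
  induction p with
  | zero =>
    have : (Matrix.of fun i j => G i j ^ 0) = Matrix.vecMulVec (fun _ : n => (1 : ℝ)) (fun _ => 1) := by
      ext i j
      simp [Matrix.vecMulVec_apply]
    rw [this, pow_zero]
    exact Matrix.rank_vecMulVec_le _ _
  | succ p ih =>
    have : (Matrix.of fun i j => G i j ^ (p + 1)) =
        Matrix.of fun i j => (Matrix.of fun i j => G i j ^ p) i j * G i j := by
      ext i j
      simp [pow_succ]
    rw [this, pow_succ]
    exact (Pool.Agent.X246.LRS.rank_hadamard _ _).trans (Nat.mul_le_mul ih hR)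

theorem rank_row (M : Matrix n n ℝ) (c : n → ℝ) :
    (Matrix.of fun i j => c i * M i j).rank ≤ M.rank := by
  classical
  have : (Matrix.of fun i j => c i * M i j) = Matrix.diagonal c * M := by
    ext i j
    simp [Matrix.diagonal_mul]
  rw [this]
  exact Matrix.rank_mul_le_right _ _

theorem rank_sum {ι : Type} (S : Finset ι) (M : ι → Matrix n n ℝ) :
    (∑ i ∈ S, M i).rank ≤ ∑ i ∈ S, (M i).rank := by
  classical
  induction S using Finset.induction_on with
  | empty => simp
  | insert a S ha ih =>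
    rw [Finset.sum_insert ha, Finset.sum_insert ha]
    exact (Pool.Agent.R533.VC.rank_add_le' _ _).trans (Nat.add_le_add_left ih _)

theorem geom (R : ℕ) (hR : 2 ≤ R) (k s : ℕ) :
    ∑ m ∈ range (s + 1), R ^ (2 * k + 2 * m) ≤ 2 * R ^ (2 * (k + s)) := by
  induction s with
  | zero => simp; nlinarith [Nat.pos_of_ne_zero (pow_ne_zero (2 * k) (by omega : R ≠ 0))]
  | succ s ih =>
    rw [Finset.sum_range_succ]
    have h1 : R ^ (2 * (k + (s + 1))) = R ^ (2 * (k + s)) * R ^ 2 := by
      rw [← pow_add]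
      congr 1
    have h2 : 2 * k + 2 * (s + 1) = 2 * (k + (s + 1)) := by ring
    rw [h2, h1]
    have h3 : 4 ≤ R ^ 2 := by nlinarith
    have h4 : 0 < R ^ (2 * (k + s)) := Nat.pos_of_ne_zero (pow_ne_zero _ (by omega))
    nlinarith

/-- The matrix of the values of the row polynomials has small rank. -/
theorem rank_poly (G : Matrix n n ℝ) (R : ℕ) (hR2 : 2 ≤ R) (hR : G.rank ≤ R) (k s : ℕ)
    (C : n → Finset ℝ) (hC : ∀ i, (C i).card ≤ s) (κ : n → ℝ) :
    (Matrix.of fun i j => κ i * (G i j ^ (2 * k) * ∏ a ∈ C i, (G i j ^ 2 - a ^ 2))).rank ≤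
      2 * R ^ (2 * (k + s)) := by
  classical
  set q : n → Polynomial ℝ := fun i => ∏ a ∈ C i, (Polynomial.X - Polynomial.C (a ^ 2)) with hq
  have hdeg : ∀ i, (q i).natDegree < s + 1 := by
    intro i
    rw [hq]
    simp only
    rw [Polynomial.natDegree_prod_of_monic _ _ (fun a _ => Polynomial.monic_X_sub_C _)]
    simp only [Polynomial.natDegree_X_sub_C, Finset.sum_const, smul_eq_mul, mul_one]
    exact Nat.lt_succ_of_le (hC i)
  have hev : ∀ i (z : ℝ), ∏ a ∈ C i, (z - a ^ 2) =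
      ∑ m ∈ range (s + 1), (q i).coeff m * z ^ m := by
    intro i z
    rw [← Polynomial.eval_eq_sum_range' (hdeg i) z, hq]
    simp only
    rw [Polynomial.eval_prod]
    refine Finset.prod_congr rfl fun a _ => ?_
    simp
  have e : (Matrix.of fun i j => κ i * (G i j ^ (2 * k) * ∏ a ∈ C i, (G i j ^ 2 - a ^ 2))) =
      ∑ m ∈ range (s + 1), Matrix.of fun i j => (κ i * (q i).coeff m) *
        (Matrix.of fun i j => G i j ^ (2 * k + 2 * m)) i j := by
    ext i j
    rw [Matrix.sum_apply]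
    simp only [Matrix.of_apply]
    rw [hev i, Finset.mul_sum, Finset.mul_sum]
    refine Finset.sum_congr rfl fun m _ => ?_
    rw [pow_add, ← pow_mul]
    ring
  rw [e]
  refine (rank_sum _ _).trans ((Finset.sum_le_sum fun m _ => ?_).trans (geom R hR2 k s))
  exact (rank_row _ _).trans (rank_pow G R hR _)

/-- A square matrix with ones on the diagonal and small entries off the diagonal. -/
theorem card_le_of_rank [DecidableEq n] (M : Matrix n n ℝ) (ρ : ℕ) (hρ : M.rank ≤ ρ) (η : ℝ)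
    (h1 : ∀ i, M i i = 1) (h2 : ∀ i j, i ≠ j → |M i j| ≤ η)
    (hη : (Fintype.card n : ℝ) * η ^ 2 ≤ 1) : Fintype.card n ≤ 4 * ρ := by
  classical
  have hη2 : 0 ≤ η ^ 2 := sq_nonneg _
  set S : Matrix n n ℝ := M + M.transpose with hS
  have hSh : S.IsHermitian := by
    rw [hS]
    ext i j
    simp [Matrix.conjTranspose_apply, add_comm]
  have hrank : S.rank ≤ 2 * ρ := by
    refine (Pool.Agent.R533.VC.rank_add_le' _ _).trans ?_
    rw [Matrix.rank_transpose]
    omega
  have htr : S.trace = 2 * Fintype.card n := by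
    rw [hS, Matrix.trace_add, Matrix.trace_transpose, Matrix.trace]
    simp only [Matrix.diag_apply, h1, Finset.sum_const, Finset.card_univ, nsmul_eq_mul, mul_one]
    ring
  have hfro : ∑ x, ∑ y, S x y ^ 2 ≤ 4 * Fintype.card n + 4 * η ^ 2 * (Fintype.card n : ℝ) ^ 2 := by
    calc ∑ x, ∑ y, S x y ^ 2 ≤ ∑ x : n, ∑ y : n, ((if x = y then 4 else 0) + 4 * η ^ 2) := by
          refine Finset.sum_le_sum fun x _ => Finset.sum_le_sum fun y _ => ?_
          by_cases hxy : x = y
          · subst hxy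
            rw [if_pos rfl, hS, Matrix.add_apply, Matrix.transpose_apply, h1]
            nlinarith
          · rw [if_neg hxy, hS, Matrix.add_apply, Matrix.transpose_apply]
            have h3 := h2 x y hxy
            have h4 := h2 y x (Ne.symm hxy)
            have h5 : |M x y + M y x| ≤ 2 * η := (abs_add_le _ _).trans (by linarith)
            have h6 : (M x y + M y x) ^ 2 ≤ (2 * η) ^ 2 := by
              rw [← sq_abs]
              exact pow_le_pow_left₀ (abs_nonneg _) h5 2
            linarith [h6, (by ring : (2 * η) ^ 2 = 4 * η ^ 2)]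
      _ = _ := by
          simp only [Finset.sum_add_distrib, Finset.sum_ite_eq, Finset.mem_univ, if_true,
            Finset.sum_const, Finset.card_univ, nsmul_eq_mul]
          ring
  have h := Pool.Agent.Q95.EigMult.trace_sq_le hSh
  rw [htr] at h
  have h3 : (S.rank : ℝ) ≤ 2 * ρ := by exact_mod_cast hrank
  have h4 : (2 * (Fintype.card n : ℝ)) ^ 2 ≤
      2 * ρ * (4 * Fintype.card n + 4 * η ^ 2 * (Fintype.card n : ℝ) ^ 2) :=
    h.trans (mul_le_mul h3 hfro (Finset.sum_nonneg fun x _ => Finset.sum_nonneg fun y _ =>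
      sq_nonneg _) (by positivity))
  rcases Nat.eq_zero_or_pos (Fintype.card n) with h0 | h0
  · omega
  · have h0' : (0 : ℝ) < Fintype.card n := by exact_mod_cast h0
    set N : ℝ := (Fintype.card n : ℝ) with hN
    have h5 : N * η ^ 2 * N ≤ 1 * N := mul_le_mul_of_nonneg_right hη h0'.le
    have hρ0 : (0 : ℝ) ≤ ρ := Nat.cast_nonneg _
    have h6 : 4 * N ^ 2 ≤ 2 * ρ * (8 * N) := by
      calc 4 * N ^ 2 = (2 * N) ^ 2 := by ring
        _ ≤ 2 * ρ * (4 * N + 4 * η ^ 2 * N ^ 2) := h4
        _ ≤ 2 * ρ * (8 * N) := by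
            refine mul_le_mul_of_nonneg_left ?_ (by positivity)
            nlinarith
    have h7 : N ≤ 4 * ρ := by
      have : N * N ≤ 4 * ρ * N := by nlinarith
      exact le_of_mul_le_mul_right this h0'
    have : ((Fintype.card n : ℕ) : ℝ) ≤ ((4 * ρ : ℕ) : ℝ) := by
      push_cast
      exact h7
    exact_mod_cast this

theorem card_le_aux [DecidableEq n] (G : Matrix n n ℝ) (R : ℕ) (hR2 : 2 ≤ R) (hR : G.rank ≤ R)
    (hd : ∀ i, G i i = 1) (ε δ : ℝ) (hε1 : ε ≤ 1) (hδ : 0 < δ) (hδ1 : δ ≤ 1) (k s : ℕ)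
    (C : n → Finset ℝ) (hC : ∀ i, (C i).card ≤ s) (hCδ : ∀ i, ∀ a ∈ C i, 0 ≤ a ∧ a ≤ 1 - δ)
    (h : ∀ i j, i ≠ j → |G i j| ∈ C i ∨ |G i j| ≤ ε)
    (hη : (Fintype.card n : ℝ) * (ε ^ (2 * k) * (δ⁻¹) ^ s) ^ 2 ≤ 1) :
    Fintype.card n ≤ 8 * R ^ (2 * (k + s)) := by
  classical
  set κ : n → ℝ := fun i => (∏ a ∈ C i, (1 - a ^ 2))⁻¹ with hκ
  have hfac : ∀ i, ∀ a ∈ C i, δ ≤ 1 - a ^ 2 := by
    intro i a ha
    obtain ⟨h1, h2⟩ := hCδ i a ha
    nlinarith
  have hprod : ∀ i, 0 < ∏ a ∈ C i, (1 - a ^ 2) := fun i =>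
    Finset.prod_pos fun a ha => hδ.trans_le (hfac i a ha)
  have hδi : 1 ≤ δ⁻¹ := (one_le_inv₀ hδ).mpr hδ1
  have key := card_le_of_rank
    (Matrix.of fun i j => κ i * (G i j ^ (2 * k) * ∏ a ∈ C i, (G i j ^ 2 - a ^ 2)))
    (2 * R ^ (2 * (k + s))) (rank_poly G R hR2 hR k s C hC κ) (ε ^ (2 * k) * (δ⁻¹) ^ s)
    (fun i => by
      simp only [Matrix.of_apply, hd, one_pow, one_mul, hκ]
      exact inv_mul_cancel₀ (hprod i).ne')
    (fun i j hij => by
      simp only [Matrix.of_apply]
      rcases h i j hij with hm | hm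
      · have h0 : ∏ a ∈ C i, (G i j ^ 2 - a ^ 2) = 0 := by
          refine Finset.prod_eq_zero hm ?_
          rw [sq_abs, sub_self]
        have hε0 : 0 ≤ ε ^ (2 * k) * (δ⁻¹) ^ s := by
          have : 0 ≤ ε ^ (2 * k) := by
            rw [pow_mul]
            exact pow_nonneg (sq_nonneg _) _
          positivity
        rw [h0, mul_zero, mul_zero, abs_zero]
        exact hε0
      · have hε0 : 0 ≤ ε := (abs_nonneg _).trans hm
        have e1 : κ i * (G i j ^ (2 * k) * ∏ a ∈ C i, (G i j ^ 2 - a ^ 2)) =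
            G i j ^ (2 * k) * ∏ a ∈ C i, ((G i j ^ 2 - a ^ 2) / (1 - a ^ 2)) := by
          rw [Finset.prod_div_distrib, hκ]
          simp only
          field_simp
        rw [e1, abs_mul, abs_pow, Finset.abs_prod]
        refine mul_le_mul (pow_le_pow_left₀ (abs_nonneg _) hm _) ?_
          (Finset.prod_nonneg fun a _ => abs_nonneg _) (by positivity)
        calc ∏ a ∈ C i, |(G i j ^ 2 - a ^ 2) / (1 - a ^ 2)| ≤ ∏ _a ∈ C i, δ⁻¹ := by
              refine Finset.prod_le_prod (fun a _ => abs_nonneg _) fun a ha => ?_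
              have h1 := hfac i a ha
              have h2 := hCδ i a ha
              have h3 : |G i j ^ 2 - a ^ 2| ≤ 1 := by
                rw [abs_le]
                have h4 : G i j ^ 2 ≤ 1 := by
                  rw [← sq_abs]
                  exact pow_le_one₀ (abs_nonneg _) (hm.trans hε1)
                have h5 : a ^ 2 ≤ 1 := by nlinarith
                constructor <;> nlinarith [sq_nonneg (G i j), sq_nonneg a]
              rw [abs_div, abs_of_pos (hδ.trans_le h1), div_eq_mul_inv]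
              calc |G i j ^ 2 - a ^ 2| * (1 - a ^ 2)⁻¹ ≤ 1 * δ⁻¹ :=
                    mul_le_mul h3 (inv_anti₀ hδ h1) (inv_nonneg.mpr (hδ.le.trans h1)) zero_le_one
                _ = δ⁻¹ := one_mul _
          _ = δ⁻¹ ^ (C i).card := by rw [Finset.prod_const]
          _ ≤ δ⁻¹ ^ s := pow_le_pow_right₀ hδi (hC i))
    hη
  omega

/-- **Few large scalar products.** Unit vectors in dimension `R` such that the scalar products of each
of them with the others have few absolute values greater than `ε`. -/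
theorem card_le [DecidableEq n] (G : Matrix n n ℝ) (R : ℕ) (hR2 : 2 ≤ R) (hR : G.rank ≤ R)
    (hd : ∀ i, G i i = 1) (ε δ : ℝ) (hε1 : ε ≤ 1) (hδ : 0 < δ) (hδ1 : δ ≤ 1) (k s : ℕ)
    (C : n → Finset ℝ) (hC : ∀ i, (C i).card ≤ s) (hCδ : ∀ i, ∀ a ∈ C i, 0 ≤ a ∧ a ≤ 1 - δ)
    (h : ∀ i j, i ≠ j → |G i j| ∈ C i ∨ |G i j| ≤ ε)
    (hη : (9 * (R : ℝ) ^ (2 * (k + s))) * (ε ^ (2 * k) * (δ⁻¹) ^ s) ^ 2 ≤ 1) :
    Fintype.card n ≤ 8 * R ^ (2 * (k + s)) := by
  classical
  by_contra hcon
  push Not at hcon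
  set m := 8 * R ^ (2 * (k + s)) + 1 with hm
  obtain ⟨ι⟩ : Nonempty (Fin m ↪ n) := by
    refine Function.Embedding.nonempty_of_card_le ?_
    rw [Fintype.card_fin]
    omega
  have h1 := card_le_aux (G.submatrix ι ι) R hR2 ((Matrix.rank_submatrix_le _ _ _).trans hR)
    (fun i => hd _) ε δ hε1 hδ hδ1 k s (fun i => C (ι i)) (fun i => hC _) (fun i => hCδ _)
    (fun i j hij => h _ _ (fun h' => hij (ι.injective h'))) (by
      rw [Fintype.card_fin]
      refine le_trans (mul_le_mul_of_nonneg_right ?_ (sq_nonneg _)) hη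
      have : (1 : ℝ) ≤ (R : ℝ) ^ (2 * (k + s)) := one_le_pow₀ (by exact_mod_cast (by omega : 1 ≤ R))
      rw [hm]
      push_cast
      linarith)
  rw [Fintype.card_fin] at h1
  omega

end Pool.Agent.H711.FC
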